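import Pool.Agent.Helper79.PS.Final

/-!
MP_82322d_al, the case of two simple groups.

Let `mu(G)` be the set of the proportions of `r`-singular elements of the finite group `G`, for the
primes `r` dividing `|G|`. The simple groups `PSp_2n(q)` and `Ω_2n+1(q)`, `q` odd, `n ≥ 3`, have the same
order and are not isomorphic; it is shown that `mu(PSp_2n(q)) ≠ mu(Ω_2n+1(q))`. The same is shown for
`A_8` and `L_3(4)`. (By the classification these are all pairs of non-isomorphic finite simple groups of
equal order.)
-/

namespace Pool.Agent.Results.MP_82322d_al.EqualOrderPairs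

universe u

/-- The proportion of elements of `G` whose order is divisible by `r` (`r`-singular elements). -/
noncomputable def mu (G : Type u) [Group G] (r : ℕ) : ℚ :=
  (Nat.card {g : G // r ∣ orderOf g} : ℚ) / (Nat.card G : ℚ)

/-- The set of the proportions `mu G r`, for the primes `r` dividing the order of `G`. -/
def muSet (G : Type u) [Group G] : Set ℚ :=
  {x | ∃ r : ℕ, r.Prime ∧ r ∣ Nat.card G ∧ x = mu G r}

/-- `PSp_2n(F)`: the symplectic group `Sp_2n(F)` modulo its centre. -/
abbrev PSp (n : ℕ) (F : Type u) [Field F] : Type u :=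
  Matrix.symplecticGroup (Fin n) F ⧸ Subgroup.center (Matrix.symplecticGroup (Fin n) F)

/-- `Ω_m(F)`: the commutator subgroup of the group `O_m(F)` of the matrices `A` with `A Aᵀ = 1`. -/
abbrev Omega (m : ℕ) (F : Type u) [Field F] : Type u :=
  commutator (Matrix.orthogonalGroup (Fin m) F)

/-- For every finite field `F` of odd characteristic and every `n ≥ 3`,
`mu(PSp_2n(F)) ≠ mu(Ω_2n+1(F))`; and `mu(A_8) ≠ mu(PSL_3(K))` for `|K| = 4`. -/
theorem result :
    (∀ (F : Type u) [Field F] [Finite F] (n : ℕ), (2 : F) ≠ 0 → 3 ≤ n →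
      muSet (PSp n F) ≠ muSet (Omega (2 * n + 1) F)) ∧
    (∀ (K : Type u) [Field K] [Finite K], Nat.card K = 4 →
      muSet (alternatingGroup (Fin 8)) ≠
        muSet (Matrix.ProjectiveSpecialLinearGroup (Fin 3) K)) :=
  ⟨fun F _ _ n h2 hn => Pool.Agent.Helper79.PS.final.{u} F n h2 hn,
    Pool.Agent.Helper79.PS.p_a8.{u}⟩

end Pool.Agent.Results.MP_82322d_al.EqualOrderPairs
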