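import Pool.Agent.Helper10.RS.Final

/-!
MP_82322d_al, S = A_n with n large.

Let `mu(G)` be the set of the proportions of `r`-singular elements of the finite group `G`, for the
primes `r` dividing `|G|`. If `mu(G) = mu(A_n)` and `n` is large, then `G` is isomorphic to `A_n`, or `G`
has simple chief factors `T` of a kind not found among the known finite simple groups: `T` is
non-abelian, not alternating, not `PSL_2(r)`, its order is divisible by a prime `r > n / 2`, the
automizer of a subgroup of order `r` of `T` has an element of order greater than `d`, and `T` has no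
non-trivial projective representation of degree at most `d` in any characteristic other than `r`.
Here `d` can be any integer up to `n ^ (1 - ε)`, while `log |T| ≤ n log n`.
The classification of the finite simple groups is not used.
-/

namespace Pool.Agent.Results.MP_82322d_al.LargeAlternating

universe u v

/-- The proportion of elements of `G` whose order is divisible by `r` (`r`-singular elements). -/
noncomputable def mu (G : Type u) [Group G] (r : ℕ) : ℚ :=
  (Nat.card {g : G // r ∣ orderOf g} : ℚ) / (Nat.card G : ℚ)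

/-- The set of the proportions `mu G r`, for the primes `r` dividing the order of `G`. -/
def muSet (G : Type u) [Group G] : Set ℚ :=
  {x | ∃ r : ℕ, r.Prime ∧ r ∣ Nat.card G ∧ x = mu G r}

/-- `G` has a simple chief factor `T = X / Y` (`X`, `Y` normal in `G`) which is not abelian, not
isomorphic to an alternating group, not isomorphic to `PSL_2(r)`; it has elements `x` of order `r`
and `g` such that `g x g⁻¹ = x ^ s` with `s` of order greater than `d` modulo `r`; and every
homomorphism from `T` to `PGL_k(F)`, with `k ≤ d` and `F` a field of characteristic not `r`, is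
trivial. -/
def Exotic (G : Type u) [Group G] (r d : ℕ) : Prop :=
  ∃ (X Y : Subgroup G) (_ : X.Normal) (_ : Y.Normal), Y ≤ X ∧
    IsSimpleGroup (↥X ⧸ Y.subgroupOf X) ∧
    (∃ a b : ↥X ⧸ Y.subgroupOf X, a * b ≠ b * a) ∧
    (∀ m : ℕ, IsEmpty ((↥X ⧸ Y.subgroupOf X) ≃* alternatingGroup (Fin m))) ∧
    IsEmpty ((↥X ⧸ Y.subgroupOf X) ≃* Matrix.ProjectiveSpecialLinearGroup (Fin 2) (ZMod r)) ∧
    (∃ (x g : ↥X ⧸ Y.subgroupOf X) (s : ℕ), orderOf x = r ∧ g * x * g⁻¹ = x ^ s ∧
      d < orderOf (s : ZMod r)) ∧
    ∀ (k : ℕ) (F : Type v) [Field F], k ≤ d → (r : F) ≠ 0 →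
      ∀ f : (↥X ⧸ Y.subgroupOf X) →* Matrix.ProjGenLinGroup (Fin k) F, f = 1

/-- For every `ε > 0` there is `n₀` such that for `n ≥ n₀` every finite group `G` with
`mu(G) = mu(A_n)` is isomorphic to `A_n`, or else for every `d ≥ 1` all but at most `d n ^ ε` of the
primes `r` in `(n / 2, n]` satisfy `Exotic G r d`, and for every `d ≤ n ^ (1 - ε)` some `r` does. -/
theorem result (ε : ℝ) (hε : 0 < ε) : ∃ n₀ : ℕ, ∀ n : ℕ, n₀ ≤ n →
    ∀ (G : Type u) [Group G] [Finite G],
    muSet G = muSet (alternatingGroup (Fin n)) →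
    Nonempty (G ≃* alternatingGroup (Fin n)) ∨
      ((∀ d : ℕ, 0 < d →
        (({r : ℕ | r.Prime ∧ n < 2 * r ∧ r ≤ n ∧ ¬ Exotic.{u, v} G r d}.ncard : ℕ) : ℝ) ≤
          d * (n : ℝ) ^ ε) ∧
      ∀ d : ℕ, (d : ℝ) ≤ (n : ℝ) ^ (1 - ε) →
        ∃ r : ℕ, r.Prime ∧ n < 2 * r ∧ r ≤ n ∧ Exotic.{u, v} G r d) :=
  Pool.Agent.Helper10.RS.main3.{u, v} ε hε

end Pool.Agent.Results.MP_82322d_al.LargeAlternating
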